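import Pool.Agent.Helper15.T4.Stmts

set_option autoImplicit false

/-!
Module MOM of MP_e0a484_co: the method of (joint factorial) moments for independent Poisson limits.
-/

open Finset Filter Topology

namespace Pool.Agent.Helper48.T4

open Pool.Agent.Helper15.T4

/-- The partial sums of the inclusion-exclusion series of the indicator of `y = z`. -/
noncomputable def sJ (z J y : ℕ) : ℝ :=
  ∑ r ∈ range (J + 1), (-1 : ℝ) ^ r / ((z.factorial : ℝ) * (r.factorial : ℝ)) *
    (y.descFactorial (z + r) : ℝ)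

/-- The bound of the error. -/
noncomputable def rJ (z J y : ℕ) : ℝ :=
  1 / ((z.factorial : ℝ) * ((J + 1).factorial : ℝ)) * (y.descFactorial (z + (J + 1)) : ℝ)

theorem term_eq (z r y : ℕ) :
    1 / ((z.factorial : ℝ) * (r.factorial : ℝ)) * (y.descFactorial (z + r) : ℝ) =
      (y.choose z : ℝ) * ((y - z).choose r : ℝ) := by
  have h1 : (y.descFactorial (z + r)) = z.factorial * r.factorial * (y.choose z * (y - z).choose r) := by
    have h2 : (y - z).descFactorial (z + r - z) * y.descFactorial z = y.descFactorial (z + r) :=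
      Nat.descFactorial_mul_descFactorial (Nat.le_add_right z r)
    rw [← h2, Nat.add_sub_cancel_left, Nat.descFactorial_eq_factorial_mul_choose,
      Nat.descFactorial_eq_factorial_mul_choose]
    ring
  rw [h1]
  push_cast
  have hz : (z.factorial : ℝ) ≠ 0 := by exact_mod_cast z.factorial_ne_zero
  have hr : (r.factorial : ℝ) ≠ 0 := by exact_mod_cast r.factorial_ne_zero
  field_simp

theorem sJ_eq (z J y : ℕ) :
    sJ z J y = (y.choose z : ℝ) * ∑ r ∈ range (J + 1), (-1 : ℝ) ^ r * ((y - z).choose r : ℝ) := by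
  unfold sJ
  rw [mul_sum]
  refine sum_congr rfl fun r _ => ?_
  have h := term_eq z r y
  have e : (-1 : ℝ) ^ r / ((z.factorial : ℝ) * (r.factorial : ℝ)) * (y.descFactorial (z + r) : ℝ) =
      (-1 : ℝ) ^ r * (1 / ((z.factorial : ℝ) * (r.factorial : ℝ)) *
        (y.descFactorial (z + r) : ℝ)) := by ring
  rw [e, h]; ring

theorem bonf (z J y : ℕ) : |(if y = z then (1 : ℝ) else 0) - sJ z J y| ≤ rJ z J y := by
  have hr : rJ z J y = (y.choose z : ℝ) * ((y - z).choose (J + 1) : ℝ) := term_eq z (J + 1) y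
  rw [hr, sJ_eq]
  rcases lt_trichotomy y z with h | h | h
  · rw [if_neg h.ne, Nat.choose_eq_zero_of_lt h]; simp
  · subst h
    rw [if_pos rfl, Nat.choose_self, Nat.sub_self]
    have : ∑ r ∈ range (J + 1), (-1 : ℝ) ^ r * ((0 : ℕ).choose r : ℝ) = 1 := by
      rw [sum_range_succ']
      simp
    rw [this]; simp
  · obtain ⟨n, hn⟩ : ∃ n, y - z = n + 1 := ⟨y - z - 1, by omega⟩
    rw [if_neg h.ne', hn]
    have h1 := @Int.alternating_sum_range_choose_eq_choose n J
    have h2 : ∑ r ∈ range (J + 1), (-1 : ℝ) ^ r * ((n + 1).choose r : ℝ) =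
        (-1) ^ J * (n.choose J : ℝ) := by exact_mod_cast congrArg (fun x : ℤ => (x : ℝ)) h1
    rw [h2, zero_sub, abs_neg, abs_mul, abs_mul, abs_pow, abs_neg, abs_one, one_pow, one_mul,
      abs_of_nonneg (Nat.cast_nonneg _), abs_of_nonneg (Nat.cast_nonneg _)]
    refine mul_le_mul_of_nonneg_left ?_ (Nat.cast_nonneg _)
    have h3 : n.choose J ≤ (n + 1).choose (J + 1) := by
      rw [Nat.choose_succ_succ]; exact Nat.le_add_right _ _
    exact_mod_cast h3

theorem one_dim {A : ℕ → Type} (S : (N : ℕ) → Finset (A N)) (V : (N : ℕ) → A N → ℝ)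
    (Y : (N : ℕ) → A N → ℕ) (a b : ℝ) (hV : ∀ N x, 0 ≤ V N x)
    (hm : ∀ j : ℕ, Tendsto (fun N => ∑ x ∈ S N, V N x * ((Y N x).descFactorial j : ℝ)) atTop
      (𝓝 (b * a ^ j))) (z : ℕ) :
    Tendsto (fun N => ∑ x ∈ S N, V N x * (if Y N x = z then (1 : ℝ) else 0)) atTop
      (𝓝 (b * po a z)) := by
  -- limits of the partial sums
  have hs : ∀ J, Tendsto (fun N => ∑ x ∈ S N, V N x * sJ z J (Y N x)) atTop
      (𝓝 (b * (a ^ z / (z.factorial : ℝ) * ∑ r ∈ range (J + 1), (-a) ^ r / (r.factorial : ℝ)))) := by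
    intro J
    have h1 : Tendsto (fun N => ∑ r ∈ range (J + 1), (-1 : ℝ) ^ r /
        ((z.factorial : ℝ) * (r.factorial : ℝ)) *
        ∑ x ∈ S N, V N x * ((Y N x).descFactorial (z + r) : ℝ)) atTop
        (𝓝 (∑ r ∈ range (J + 1), (-1 : ℝ) ^ r /
        ((z.factorial : ℝ) * (r.factorial : ℝ)) * (b * a ^ (z + r)))) :=
      tendsto_finsetSum _ fun r _ => (hm (z + r)).const_mul _
    have e1 : (fun N => ∑ x ∈ S N, V N x * sJ z J (Y N x)) = fun N => ∑ r ∈ range (J + 1),
        (-1 : ℝ) ^ r / ((z.factorial : ℝ) * (r.factorial : ℝ)) *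
        ∑ x ∈ S N, V N x * ((Y N x).descFactorial (z + r) : ℝ) := by
      funext N
      unfold sJ
      simp only [mul_sum]
      rw [sum_comm]
      refine sum_congr rfl fun r _ => sum_congr rfl fun x _ => ?_
      ring
    have e2 : b * (a ^ z / (z.factorial : ℝ) * ∑ r ∈ range (J + 1), (-a) ^ r / (r.factorial : ℝ)) =
        ∑ r ∈ range (J + 1), (-1 : ℝ) ^ r /
        ((z.factorial : ℝ) * (r.factorial : ℝ)) * (b * a ^ (z + r)) := by
      rw [mul_sum, mul_sum]
      refine sum_congr rfl fun r _ => ?_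
      have hz : (z.factorial : ℝ) ≠ 0 := by exact_mod_cast z.factorial_ne_zero
      have hr : (r.factorial : ℝ) ≠ 0 := by exact_mod_cast r.factorial_ne_zero
      rw [neg_pow, pow_add]
      field_simp
    rw [e1, e2]
    exact h1
  have hr : ∀ J, Tendsto (fun N => ∑ x ∈ S N, V N x * rJ z J (Y N x)) atTop
      (𝓝 (b * (a ^ z / (z.factorial : ℝ)) * (a ^ (J + 1) / ((J + 1).factorial : ℝ)))) := by
    intro J
    have h1 := (hm (z + (J + 1))).const_mul (1 / ((z.factorial : ℝ) * ((J + 1).factorial : ℝ)))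
    have e1 : (fun N => ∑ x ∈ S N, V N x * rJ z J (Y N x)) = fun N =>
        1 / ((z.factorial : ℝ) * ((J + 1).factorial : ℝ)) *
        ∑ x ∈ S N, V N x * ((Y N x).descFactorial (z + (J + 1)) : ℝ) := by
      funext N
      unfold rJ
      rw [mul_sum]
      refine sum_congr rfl fun x _ => ?_
      ring
    have e2 : b * (a ^ z / (z.factorial : ℝ)) * (a ^ (J + 1) / ((J + 1).factorial : ℝ)) =
        1 / ((z.factorial : ℝ) * ((J + 1).factorial : ℝ)) * (b * a ^ (z + (J + 1))) := by
      have hz : (z.factorial : ℝ) ≠ 0 := by exact_mod_cast z.factorial_ne_zero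
      have hr : ((J + 1).factorial : ℝ) ≠ 0 := by exact_mod_cast (J + 1).factorial_ne_zero
      rw [pow_add a z]
      field_simp
    rw [e1, e2]
    exact h1
  -- limits in J
  have hlim1 : Tendsto (fun J : ℕ => b * (a ^ z / (z.factorial : ℝ) *
      ∑ r ∈ range (J + 1), (-a) ^ r / (r.factorial : ℝ))) atTop (𝓝 (b * po a z)) := by
    have h1 : HasSum (fun r : ℕ => (-a) ^ r / (r.factorial : ℝ)) (Real.exp (-a)) := by
      rw [Real.exp_eq_exp_ℝ]
      exact NormedSpace.expSeries_div_hasSum_exp (-a)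
    have h2 := (h1.tendsto_sum_nat.comp (tendsto_add_atTop_nat 1)).const_mul
      (a ^ z / (z.factorial : ℝ))
    have h3 := h2.const_mul b
    have e : po a z = a ^ z / (z.factorial : ℝ) * Real.exp (-a) := by
      unfold po; ring
    rw [e]
    exact h3
  have hlim2 : Tendsto (fun J : ℕ => b * (a ^ z / (z.factorial : ℝ)) *
      (a ^ (J + 1) / ((J + 1).factorial : ℝ))) atTop (𝓝 0) := by
    have h1 := ((FloorSemiring.tendsto_pow_div_factorial_atTop a).comp
      (tendsto_add_atTop_nat 1)).const_mul (b * (a ^ z / (z.factorial : ℝ)))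
    rw [mul_zero] at h1
    exact h1
  rw [Metric.tendsto_atTop]
  intro ε hε
  obtain ⟨J1, hJ1⟩ := (Metric.tendsto_atTop.1 hlim1) (ε / 4) (by positivity)
  obtain ⟨J2, hJ2⟩ := (Metric.tendsto_atTop.1 hlim2) (ε / 4) (by positivity)
  set J := max J1 J2 with hJ
  have g1 := hJ1 J (le_max_left _ _)
  have g2 := hJ2 J (le_max_right _ _)
  obtain ⟨N1, hN1⟩ := (Metric.tendsto_atTop.1 (hs J)) (ε / 4) (by positivity)
  obtain ⟨N2, hN2⟩ := (Metric.tendsto_atTop.1 (hr J)) (ε / 4) (by positivity)
  refine ⟨max N1 N2, fun N hN => ?_⟩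
  have f1 := hN1 N ((le_max_left _ _).trans hN)
  have f2 := hN2 N ((le_max_right _ _).trans hN)
  have key : |∑ x ∈ S N, V N x * (if Y N x = z then (1 : ℝ) else 0) -
      ∑ x ∈ S N, V N x * sJ z J (Y N x)| ≤ ∑ x ∈ S N, V N x * rJ z J (Y N x) := by
    rw [← sum_sub_distrib]
    refine (abs_sum_le_sum_abs _ _).trans (sum_le_sum fun x _ => ?_)
    rw [← mul_sub, abs_mul, abs_of_nonneg (hV N x)]
    exact mul_le_mul_of_nonneg_left (bonf z J (Y N x)) (hV N x)
  rw [Real.dist_eq] at *
  rw [abs_lt] at *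
  have k := abs_le.1 key
  constructor <;> linarith [k.1, k.2, g1.1, g1.2, g2.1, g2.2, f1.1, f1.2, f2.1, f2.2]

theorem many {A : ℕ → Type} (S : (N : ℕ) → Finset (A N)) (W : (N : ℕ) → A N → ℝ) (m : ℕ)
    (Z : (N : ℕ) → A N → Fin m → ℕ) (a : Fin m → ℝ) (hW : ∀ N x, 0 ≤ W N x)
    (hm : ∀ j : Fin m → ℕ, Tendsto (fun N => ∑ x ∈ S N, W N x *
      ((∏ k, (Z N x k).descFactorial (j k) : ℕ) : ℝ)) atTop (𝓝 (∏ k, a k ^ (j k))))
    (T : Finset (Fin m)) : ∀ z j : Fin m → ℕ,
    Tendsto (fun N => ∑ x ∈ S N, W N x * ∏ i, (if i ∈ T then (if Z N x i = z i then (1 : ℝ) else 0)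
      else ((Z N x i).descFactorial (j i) : ℝ))) atTop
      (𝓝 (∏ i, if i ∈ T then po (a i) (z i) else a i ^ (j i))) := by
  induction T using Finset.induction_on with
  | empty =>
    intro z j
    simpa using hm j
  | insert k T hk ih =>
    intro z j
    set V : (N : ℕ) → A N → ℝ := fun N x => W N x * ∏ i ∈ univ.erase k,
      (if i ∈ T then (if Z N x i = z i then (1 : ℝ) else 0)
      else ((Z N x i).descFactorial (j i) : ℝ)) with hVdef
    set b : ℝ := ∏ i ∈ univ.erase k, (if i ∈ T then po (a i) (z i) else a i ^ (j i)) with hb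
    have hV : ∀ N x, 0 ≤ V N x := by
      intro N x
      refine mul_nonneg (hW N x) (prod_nonneg fun i _ => ?_)
      split_ifs <;> positivity
    have hmom : ∀ r : ℕ, Tendsto (fun N => ∑ x ∈ S N, V N x * ((Z N x k).descFactorial r : ℝ)) atTop
        (𝓝 (b * a k ^ r)) := by
      intro r
      have h1 := ih z (Function.update j k r)
      have e1 : (fun N => ∑ x ∈ S N, V N x * ((Z N x k).descFactorial r : ℝ)) = fun N =>
          ∑ x ∈ S N, W N x * ∏ i, (if i ∈ T then (if Z N x i = z i then (1 : ℝ) else 0)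
          else ((Z N x i).descFactorial (Function.update j k r i) : ℝ)) := by
        funext N
        refine sum_congr rfl fun x _ => ?_
        rw [hVdef, ← mul_prod_erase univ _ (mem_univ k), if_neg hk, Function.update_self]
        have e3 : ∏ i ∈ univ.erase k, (if i ∈ T then (if Z N x i = z i then (1 : ℝ) else 0)
            else ((Z N x i).descFactorial (Function.update j k r i) : ℝ)) =
            ∏ i ∈ univ.erase k, (if i ∈ T then (if Z N x i = z i then (1 : ℝ) else 0)
            else ((Z N x i).descFactorial (j i) : ℝ)) := by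
          refine prod_congr rfl fun i hi => ?_
          rw [Function.update_of_ne (ne_of_mem_erase hi)]
        rw [e3]; ring
      have e2 : b * a k ^ r = ∏ i, (if i ∈ T then po (a i) (z i)
          else a i ^ (Function.update j k r i)) := by
        rw [hb, ← mul_prod_erase univ _ (mem_univ k), if_neg hk, Function.update_self]
        have e3 : ∏ i ∈ univ.erase k, (if i ∈ T then po (a i) (z i)
            else a i ^ (Function.update j k r i)) =
            ∏ i ∈ univ.erase k, (if i ∈ T then po (a i) (z i) else a i ^ (j i)) := by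
          refine prod_congr rfl fun i hi => ?_
          rw [Function.update_of_ne (ne_of_mem_erase hi)]
        rw [e3]; ring
      rw [e1, e2]
      exact h1
    have h2 := one_dim S V (fun N x => Z N x k) (a k) b hV hmom (z k)
    have e1 : (fun N => ∑ x ∈ S N, W N x * ∏ i, (if i ∈ insert k T then
        (if Z N x i = z i then (1 : ℝ) else 0) else ((Z N x i).descFactorial (j i) : ℝ))) =
        fun N => ∑ x ∈ S N, V N x * (if Z N x k = z k then (1 : ℝ) else 0) := by
      funext N
      refine sum_congr rfl fun x _ => ?_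
      rw [hVdef, ← mul_prod_erase univ _ (mem_univ k), if_pos (mem_insert_self k T)]
      have e3 : ∏ i ∈ univ.erase k, (if i ∈ insert k T then
          (if Z N x i = z i then (1 : ℝ) else 0) else ((Z N x i).descFactorial (j i) : ℝ)) =
          ∏ i ∈ univ.erase k, (if i ∈ T then (if Z N x i = z i then (1 : ℝ) else 0)
          else ((Z N x i).descFactorial (j i) : ℝ)) := by
        refine prod_congr rfl fun i hi => ?_
        have hik : i ≠ k := ne_of_mem_erase hi
        by_cases hT : i ∈ T
        · rw [if_pos hT, if_pos (mem_insert_of_mem hT)]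
        · rw [if_neg hT, if_neg (fun h => (mem_insert.1 h).elim hik hT)]
      rw [e3]; ring
    have e2 : (∏ i, if i ∈ insert k T then po (a i) (z i) else a i ^ (j i)) = b * po (a k) (z k) := by
      rw [hb, ← mul_prod_erase univ _ (mem_univ k), if_pos (mem_insert_self k T)]
      have e3 : ∏ i ∈ univ.erase k, (if i ∈ insert k T then po (a i) (z i) else a i ^ (j i)) =
          ∏ i ∈ univ.erase k, (if i ∈ T then po (a i) (z i) else a i ^ (j i)) := by
        refine prod_congr rfl fun i hi => ?_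
        have hik : i ≠ k := ne_of_mem_erase hi
        by_cases hT : i ∈ T
        · rw [if_pos hT, if_pos (mem_insert_of_mem hT)]
        · rw [if_neg hT, if_neg (fun h => (mem_insert.1 h).elim hik hT)]
      rw [e3]; ring
    rw [e1, e2]
    exact h2

/-- MOM: convergence of the joint factorial moments implies convergence to independent Poisson
variables. -/
theorem MOM : ST_MOM := by
  intro A S W m Z a hW _ hm z
  have h := many S W m Z a hW hm univ z (fun _ => 0)
  have e1 : (fun N => ∑ x ∈ S N, W N x * ∏ i, (if i ∈ (univ : Finset (Fin m)) then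
      (if Z N x i = z i then (1 : ℝ) else 0) else ((Z N x i).descFactorial 0 : ℝ))) =
      fun N => ∑ x ∈ (S N).filter (fun x => Z N x = z), W N x := by
    funext N
    rw [sum_filter]
    refine sum_congr rfl fun x _ => ?_
    simp only [mem_univ, if_true]
    by_cases hz : Z N x = z
    · rw [if_pos hz]
      have : ∏ i, (if Z N x i = z i then (1 : ℝ) else 0) = 1 :=
        prod_eq_one fun i _ => if_pos (congrFun hz i)
      rw [this, mul_one]
    · rw [if_neg hz]
      obtain ⟨i, hi⟩ := Function.ne_iff.1 hz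
      have : ∏ i, (if Z N x i = z i then (1 : ℝ) else 0) = 0 :=
        prod_eq_zero (mem_univ i) (if_neg hi)
      rw [this, mul_zero]
  have e2 : (∏ i, if i ∈ (univ : Finset (Fin m)) then po (a i) (z i) else a i ^ 0) =
      ∏ k, po (a k) (z k) := by simp
  rw [e1, e2] at h
  exact h

end Pool.Agent.Helper48.T4
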